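import Pool.Agent.H741.EL.Stm

/-! `EL COMP0`: an admissible curve from a convex body which touches the ellipse in one point. -/

set_option autoImplicit false
open MeasureTheory Metric Set Filter Topology

namespace Pool.Agent.H314.EL
open Pool.Agent.Y508
open Pool.Agent.H741.EL

theorem vol_int {K : Set E2} (h : Body K) : volume (interior K) = volume K := by
  apply le_antisymm (measure_mono interior_subset)
  have h1 : K ⊆ interior K ∪ frontier K := by
    intro x hx
    by_cases h2 : x ∈ interior K
    · exact Or.inl h2
    · exact Or.inr ⟨subset_closure hx, h2⟩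
  calc volume K ≤ volume (interior K ∪ frontier K) := measure_mono h1
    _ ≤ volume (interior K) + volume (frontier K) := measure_union_le _ _
    _ = volume (interior K) := by rw [h.cvx.addHaar_frontier volume, add_zero]

theorem t_COMP0 (h1 : S_SC) (h2 : S_CURVE) (h3 : S_ELL) : S_COMP0 := by
  intro a b p K hb hab hK hKE hKp hvol
  obtain ⟨hE, hEi, hEf, hEv, -, -, -, -⟩ := h3 a b hb hab
  obtain ⟨γ, hγ, hγi, hγl⟩ := h2 K hK
  have ha : 0 < a := hb.trans_le hab
  have hKc : IsClosed K := hK.cpt.isClosed
  have hfr : frontier K = K \ interior K := hKc.frontier_eq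
  have hint : interior K ⊆ inE a b := by
    rw [← hEi]
    exact interior_mono hKE
  have hpK : p ∈ K ∩ bdE a b := by
    rw [hKp]
    exact mem_singleton p
  have hpi : p ∉ interior K := by
    intro h
    have h4 : (p 0 / a) ^ 2 + (p 1 / b) ^ 2 < 1 := hint h
    have h5 : (p 0 / a) ^ 2 + (p 1 / b) ^ 2 = 1 := hpK.2
    linarith
  have hfin : volume K ≠ ⊤ := hK.cpt.measure_lt_top.ne
  have hvK : volume K = ENNReal.ofReal (Real.pi * a * b / 2) := by
    rw [← ENNReal.ofReal_toReal hfin]
    exact congrArg ENNReal.ofReal hvol
  refine ⟨γ, ⟨hγ, ?_, ?_, ?_, ?_⟩, hγi, hγl⟩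
  · exact ne_top_of_le_ne_top ENNReal.ofReal_ne_top hγl
  · rw [hγi]
    exact hKc.frontier_subset.trans hKE
  · rw [hγi, hfr]
    exact ⟨hpK.1, hpi⟩
  · refine ⟨interior K, inE a b \ K, isOpen_interior, ?_, ?_, ?_, ?_, ?_, ?_, ?_⟩
    · rw [← hEi]
      exact isOpen_interior.sdiff hKc
    · rw [Set.disjoint_left]
      intro x hx hx2
      exact hx2.2 (interior_subset hx)
    · rw [hγi, hfr]
      ext x
      constructor
      · rintro (hx | hx)
        · exact ⟨hint hx, fun h => h.2 hx⟩
        · exact ⟨hx.1, fun h => hx.2 h.1⟩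
      · rintro ⟨hx1, hx2⟩
        by_cases h4 : x ∈ interior K
        · exact Or.inl h4
        · exact Or.inr ⟨hx1, fun h5 => hx2 ⟨h5, h4⟩⟩
    · have h4 : ContractibleSpace ↥(interior K) := hK.cvx.interior.contractibleSpace hK.int
      exact SimplyConnectedSpace.ofContractible _
    · rw [← hEi]
      refine h1 (Ell a b) K p hE hK hKE ?_
      rw [hEf]
      exact hKp
    · rw [vol_int hK, hvK]
    · have h4 : volume (inE a b \ K) = volume (Ell a b \ K) := by
        apply le_antisymm
        · apply measure_mono
          rw [← hEi]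
          exact sdiff_subset_sdiff_left interior_subset
        · have h5 : Ell a b \ K ⊆ (inE a b \ K) ∪ frontier (Ell a b) := by
            intro x hx
            by_cases h6 : x ∈ inE a b
            · exact Or.inl ⟨h6, hx.2⟩
            · refine Or.inr ⟨subset_closure hx.1, ?_⟩
              rw [hEi]
              exact h6
          calc volume (Ell a b \ K) ≤ volume ((inE a b \ K) ∪ frontier (Ell a b)) := measure_mono h5
            _ ≤ volume (inE a b \ K) + volume (frontier (Ell a b)) := measure_union_le _ _
            _ = volume (inE a b \ K) := by rw [hE.cvx.addHaar_frontier volume, add_zero]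
      rw [h4, measure_sdiff hKE hKc.measurableSet.nullMeasurableSet hfin, hEv, hvK,
        ← ENNReal.ofReal_sub _ (by positivity)]
      congr 1
      ring

end Pool.Agent.H314.EL
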